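import Pool.Agent.W599.DSN.Stm

/-! Geometry of the envelopes: the sign of the quadratic form. -/

set_option autoImplicit false

open Pool.Agent.W599.DSN

namespace Pool.Agent.W891.DSN.GEO

theorem aff_left {α β v u : ℝ} (hvu : v < u) (h : ∀ x, v < x → x < u → α * x + β ≤ 0) :
    α * u + β ≤ 0 := by
  have hcl : IsClosed {x : ℝ | α * x + β ≤ 0} :=
    isClosed_le (by fun_prop) continuous_const
  have hsub : Set.Ioo v u ⊆ {x : ℝ | α * x + β ≤ 0} := fun x hx => h x hx.1 hx.2
  have h1 := closure_minimal hsub hcl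
  rw [closure_Ioo hvu.ne] at h1
  exact h1 ⟨hvu.le, le_rfl⟩

theorem aff_right {α β v u : ℝ} (hvu : v < u) (h : ∀ x, v < x → x < u → α * x + β ≤ 0) :
    α * v + β ≤ 0 := by
  have hcl : IsClosed {x : ℝ | α * x + β ≤ 0} :=
    isClosed_le (by fun_prop) continuous_const
  have hsub : Set.Ioo v u ⊆ {x : ℝ | α * x + β ≤ 0} := fun x hx => h x hx.1 hx.2
  have h1 := closure_minimal hsub hcl
  rw [closure_Ioo hvu.ne] at h1
  exact h1 ⟨le_rfl, hvu.le⟩

variable {m n : ℕ} {w : Fin m → Fin n} {a b l r : Fin n → ℝ} {t : Fin (m + 1) → ℝ}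

theorem left_le (H : Rz w a b l r t) {c : Fin n} {k : Fin m} (h : ∃ i, i < k ∧ w i = c) :
    l c ≤ t k.castSucc := by
  obtain ⟨i, hi, rfl⟩ := h
  obtain ⟨x, _, hx2, hx3, _⟩ := H.2.2.2.1 i
  have h1 : t i.succ ≤ t k.castSucc := by
    apply H.1.monotone
    rw [Fin.le_def]
    simp only [Fin.val_succ, Fin.val_castSucc]
    have := Fin.lt_def.1 hi
    omega
  linarith

theorem right_ge (H : Rz w a b l r t) {c : Fin n} {k : Fin m} (h : ∃ i, k < i ∧ w i = c) :
    t k.succ ≤ r c := by
  obtain ⟨i, hi, rfl⟩ := h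
  obtain ⟨x, hx1, _, _, hx4⟩ := H.2.2.2.1 i
  have h1 : t k.succ ≤ t i.castSucc := by
    apply H.1.monotone
    rw [Fin.le_def]
    simp only [Fin.val_succ, Fin.val_castSucc]
    have := Fin.lt_def.1 hi
    omega
  linarith

theorem cross (H : Rz w a b l r t) {p q : Fin n} {k k' : Fin m} (hk : k.val + 1 = k'.val)
    (hp : w k = p) (hq : w k' = q) (hpq : p ≠ q) (hqb : ∃ i, i < k ∧ w i = q)
    (hpa : ∃ i, k' < i ∧ w i = p) :
    a q < a p ∧ a p * t k.succ + b p = a q * t k.succ + b q := by
  have hkk : k.succ = k'.castSucc := by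
    ext
    simp only [Fin.val_succ, Fin.val_castSucc]
    exact hk
  have hlq := left_le H hqb
  have hrp := right_ge H hpa
  obtain ⟨x1, h11, h12, h13, h14⟩ := H.2.2.2.1 k
  obtain ⟨x4, h41, h42, h43, h44⟩ := H.2.2.2.1 k'
  rw [hp] at h13 h14
  rw [hq] at h43 h44
  rw [← hkk] at h41
  have hA : ∀ x, x1 ≤ x → x < t k.succ → a p * x + b p < a q * x + b q := by
    intro x hx1 hx2
    have h := (H.2.2.2.2 k x (by linarith) hx2 q (by linarith) (by linarith)).2.2
    rw [hp] at h
    exact h (Ne.symm hpq)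
  have hB : ∀ y, t k.succ < y → y ≤ x4 → a q * y + b q < a p * y + b p := by
    intro y hy1 hy2
    have h := (H.2.2.2.2 k' y (by rw [← hkk]; exact hy1) (by linarith) p (by linarith)
      (by linarith)).2.2
    rw [hq] at h
    exact h hpq
  constructor
  · have h1 := hA x1 le_rfl h12
    have h2 := hB x4 h41 le_rfl
    by_contra hc
    push Not at hc
    nlinarith
  · apply le_antisymm
    · have h := aff_left (α := a p - a q) (β := b p - b q) h12 (fun x hx1 hx2 => by
        have := hA x hx1.le hx2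
        nlinarith)
      nlinarith
    · have h := aff_right (α := a q - a p) (β := b q - b p) h41 (fun x hx1 hx2 => by
        have := hB x hx1 hx2.le
        nlinarith)
      nlinarith

theorem geoa : GEOA := by
  intro m n w a b l r t H p q z k k' hk hp hq hpq hzp _ hqb hpa hzb hza
  obtain ⟨h1, h2⟩ := cross H hk hp hq hpq hqb hpa
  have hkk : k.succ = k'.castSucc := by
    ext
    simp only [Fin.val_succ, Fin.val_castSucc]
    exact hk
  have hlz := left_le H hzb
  have hrz := right_ge H hza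
  have hlt : t k.castSucc < t k.succ := H.1 (Fin.castSucc_lt_succ)
  have hlt' : t k.succ < t k'.succ := by
    rw [hkk]
    exact H.1 (Fin.castSucc_lt_succ)
  have h3 := aff_left (α := a p - a z) (β := b p - b z) hlt (fun x hx1 hx2 => by
    have h := (H.2.2.2.2 k x hx1 hx2 z (by linarith) (by linarith)).2.2
    rw [hp] at h
    have h' := h hzp
    nlinarith)
  have h4 : b q - b p = (a p - a q) * t k.succ := by linarith
  have h5 : qf a b p z q = (a p - a q) * (-((a p - a z) * t k.succ + (b p - b z))) := by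
    unfold qf
    rw [h4]
    ring
  rw [h5]
  exact mul_nonneg (by linarith) (by linarith)

theorem geop : GEOP := by
  intro m n w a b l r t H p q z k k' k'' hk hk' hp hz hq hpq hzp hzq hqb hpa hzb hza
  obtain ⟨h1, h2⟩ := cross H hk hp hz (Ne.symm hzp) hzb (by
    obtain ⟨i, hi, h⟩ := hpa
    refine ⟨i, ?_, h⟩
    rw [Fin.lt_def] at hi ⊢
    omega)
  obtain ⟨h3, h4⟩ := cross H hk' hz hq hzq (by
    obtain ⟨i, hi, h⟩ := hqb
    refine ⟨i, ?_, h⟩
    rw [Fin.lt_def] at hi ⊢
    omega) hza
  have huv : t k.succ < t k'.succ := by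
    apply H.1
    rw [Fin.lt_def]
    simp only [Fin.val_succ]
    omega
  have h5 : qf a b p z q = (a p - a z) * (a z - a q) * (t k.succ - t k'.succ) := by
    have e1 : b z = b p + (a p - a z) * t k.succ := by linarith
    have e2 : b q = b z + (a z - a q) * t k'.succ := by linarith
    unfold qf
    rw [e2, e1]
    ring
  rw [h5]
  have h6 : 0 < (a p - a z) * (a z - a q) := mul_pos (by linarith) (by linarith)
  nlinarith

end Pool.Agent.W891.DSN.GEO
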